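import Mathlib

/-! Algebra and growth for the abelianization of the group of area preserving diffeomorphisms of
the plane: extension of homomorphisms to divisible groups, and the independence of exponentials
modulo functions with bounded mean. -/

set_option autoImplicit false

namespace Pool.Agent.Helper41.AB

open Finset Filter Topology

/-- A homomorphism `π` to a divisible group that kills the kernel of `T` factors through `T`. -/
theorem exists_factor {E A W : Type} [AddCommGroup E] [AddCommGroup A] [AddCommGroup W]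
    [DivisibleBy W ℤ] (T : E →+ A) (π : E →+ W) (hker : ∀ e, T e = 0 → π e = 0) :
    ∃ Ψ : A →+ W, ∀ e, Ψ (T e) = π e := by
  have hle : T.ker ≤ π.ker := fun e he => hker e he
  obtain ⟨Ψ, hΨ⟩ := (Module.Baer.of_divisible W).extension_property_addMonoidHom
    (QuotientAddGroup.kerLift T) (QuotientAddGroup.kerLift_injective T)
    (QuotientAddGroup.lift T.ker π hle)
  refine ⟨Ψ, fun e => ?_⟩
  have h := DFunLike.congr_fun hΨ (QuotientAddGroup.mk e)
  simpa using h

/-- a real vector space is a divisible group -/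
@[instance_reducible]
noncomputable def divisibleReal (W : Type) [AddCommGroup W] [Module ℝ W] : DivisibleBy W ℤ where
  div w n := (n : ℝ)⁻¹ • w
  div_zero w := by simp
  div_cancel := by
    intro n w hn
    have hn' : (n : ℝ) ≠ 0 := by exact_mod_cast hn
    rw [← Int.cast_smul_eq_zsmul ℝ, smul_smul, mul_inv_cancel₀ hn', one_smul]

theorem tendsto_exp_neg_mul (k : ℝ) (hk : k < 0) :
    Tendsto (fun r : ℝ => Real.exp (k * r)) atTop (𝓝 0) :=
  Real.tendsto_exp_atBot.comp (tendsto_id.const_mul_atTop_of_neg hk)

theorem tendsto_mul_exp_neg (b : ℝ) (hb : 0 < b) :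
    Tendsto (fun r : ℝ => r * Real.exp (-b * r)) atTop (𝓝 0) := by
  have h1 := (Real.tendsto_pow_mul_exp_neg_atTop_nhds_zero 1).comp
    (tendsto_id.const_mul_atTop hb)
  have h2 := h1.const_mul b⁻¹
  rw [mul_zero] at h2
  refine h2.congr fun r => ?_
  have hb' : b ≠ 0 := hb.ne'
  simp only [Function.comp, pow_one, id]
  rw [show -(b * r) = -b * r by ring]
  field_simp

/-- Exponentials with positive rates are independent modulo functions with bounded mean. -/
theorem exp_independent (s : Finset ℝ) (hs : ∀ a ∈ s, 0 < a) (c : ℝ → ℝ) (C : ℝ)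
    (h : ∀ r : ℝ, 1 ≤ r → |∑ a ∈ s, c a * ((Real.exp (a * r) - 1) / a)| ≤ C * r) :
    ∀ a ∈ s, c a = 0 := by
  by_contra hcon
  push Not at hcon
  obtain ⟨a₀, ha₀, hca₀⟩ := hcon
  have hne : (s.filter fun a => c a ≠ 0).Nonempty := ⟨a₀, Finset.mem_filter.2 ⟨ha₀, hca₀⟩⟩
  set b := (s.filter fun a => c a ≠ 0).max' hne with hb
  have hbm : b ∈ s.filter fun a => c a ≠ 0 := Finset.max'_mem _ _
  obtain ⟨hbs, hcb⟩ := Finset.mem_filter.1 hbm
  have hb0 : 0 < b := hs b hbs
  have hmax : ∀ a ∈ s, c a ≠ 0 → a ≤ b := fun a ha hca =>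
    Finset.le_max' _ _ (Finset.mem_filter.2 ⟨ha, hca⟩)
  -- the quotient by `exp (b r)` tends to `c b / b`
  have hlim : Tendsto (fun r : ℝ => (∑ a ∈ s, c a * ((Real.exp (a * r) - 1) / a)) *
      Real.exp (-b * r)) atTop (𝓝 (∑ a ∈ s, if a = b then c b / b else 0)) := by
    have e : (fun r : ℝ => (∑ a ∈ s, c a * ((Real.exp (a * r) - 1) / a)) * Real.exp (-b * r)) =
        fun r : ℝ => ∑ a ∈ s, c a / a * (Real.exp ((a - b) * r) - Real.exp (-b * r)) := by
      funext r
      rw [Finset.sum_mul]
      refine Finset.sum_congr rfl fun a _ => ?_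
      rw [show (a - b) * r = a * r + -b * r by ring, Real.exp_add]
      ring
    rw [e]
    refine tendsto_finsetSum _ fun a ha => ?_
    have hexp := tendsto_exp_neg_mul (-b) (by linarith)
    by_cases hab : a = b
    · rw [if_pos hab, hab]
      have h1 : (fun r : ℝ => c b / b * (Real.exp ((b - b) * r) - Real.exp (-b * r))) =
          fun r : ℝ => c b / b * (1 - Real.exp (-b * r)) := by
        funext r
        rw [sub_self, zero_mul, Real.exp_zero]
      rw [h1]
      have h2 := (hexp.const_sub 1).const_mul (c b / b)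
      rw [sub_zero, mul_one] at h2
      exact h2
    · rw [if_neg hab]
      by_cases hca : c a = 0
      · rw [hca]
        simp
      · have hlt : a - b < 0 := by
          have := lt_of_le_of_ne (hmax a ha hca) hab
          linarith
        have h2 := ((tendsto_exp_neg_mul (a - b) hlt).sub hexp).const_mul (c a / a)
        rw [sub_zero, mul_zero] at h2
        exact h2
  rw [Finset.sum_ite_eq' s b, if_pos hbs] at hlim
  have hC : Tendsto (fun r : ℝ => C * (r * Real.exp (-b * r))) atTop (𝓝 0) := by
    have := (tendsto_mul_exp_neg b hb0).const_mul C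
    rw [mul_zero] at this
    exact this
  have hle : |c b / b| ≤ 0 := by
    refine le_of_tendsto_of_tendsto hlim.abs hC ?_
    filter_upwards [eventually_ge_atTop (1 : ℝ)] with r hr
    rw [abs_mul, abs_of_pos (Real.exp_pos _), ← mul_assoc]
    exact mul_le_mul_of_nonneg_right (h r hr) (Real.exp_pos _).le
  have h0 : c b / b = 0 := abs_eq_zero.1 (le_antisymm hle (abs_nonneg _))
  rcases div_eq_zero_iff.1 h0 with h1 | h1
  · exact hcb h1
  · exact hb0.ne' h1

theorem integral_exp_mul_real (a : ℝ) (ha : 0 < a) (r : ℝ) :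
    ∫ t in (0 : ℝ)..r, Real.exp (a * t) = (Real.exp (a * r) - 1) / a := by
  have hd : ∀ x ∈ Set.uIcc (0 : ℝ) r, HasDerivAt (fun t => Real.exp (a * t) / a)
      (Real.exp (a * x)) x := by
    intro x _
    have h1 : HasDerivAt (fun t : ℝ => a * t) a x := by
      simpa using (hasDerivAt_id x).const_mul a
    have h2 := h1.exp.div_const a
    rwa [mul_div_assoc, div_self ha.ne', mul_one] at h2
  have hc : Continuous fun t : ℝ => Real.exp (a * t) :=
    Real.continuous_exp.comp (continuous_const.mul continuous_id)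
  rw [intervalIntegral.integral_eq_sub_of_hasDerivAt hd (hc.intervalIntegrable _ _)]
  simp only [mul_zero, Real.exp_zero]
  ring

/-- A set of continuous functions `ℝ → ℝ` has at most continuum many elements. -/
theorem card_le_of_continuous (S : Set (ℝ → ℝ)) (hS : ∀ h ∈ S, Continuous h) :
    Cardinal.mk S ≤ Cardinal.continuum := by
  have hinj : Function.Injective (fun (h : S) (q : ℚ) => (h : ℝ → ℝ) (q : ℝ)) := by
    intro h k hhk
    apply Subtype.ext
    have hdense : DenseRange ((↑) : ℚ → ℝ) := Rat.denseRange_cast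
    refine hdense.equalizer (hS _ h.2) (hS _ k.2) ?_
    funext q
    exact congrFun hhk q
  refine (Cardinal.mk_le_of_injective hinj).trans ?_
  rw [Cardinal.mk_arrow]
  simp [Cardinal.mk_real]

end Pool.Agent.Helper41.AB
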