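import Pool.Agent.Helper31.AP.ActF
import Pool.Agent.Helper31.AP.ActG

/-! Radial twists of the plane: `x ↦` rotation of `x` by the angle `h (|x|²/2)`. Total primitive
and total angle of a factorization of a radial twist (generalizing the modules `ActF`, `ActG` of
`Pool.Agent.Helper31.AP`, where `h (t) = t`). -/

set_option autoImplicit false

namespace Pool.Agent.Helper41.AB

open Finset Pool.Agent.Helper31.AP

/-- the radial twist with angle function `h` -/
noncomputable def fh (h : ℝ → ℝ) (x : V) : V := rot (h (hsq x)) x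

theorem hasFDerivAt_fh (h : ℝ → ℝ) (hd : Differentiable ℝ h) (x : V) :
    ∃ A : V →L[ℝ] V, HasFDerivAt (fh h) A x ∧ ∀ v,
    A v 0 = (v 0 * Real.cos (h (hsq x)) - v 1 * Real.sin (h (hsq x))) -
      (x 0 * Real.sin (h (hsq x)) + x 1 * Real.cos (h (hsq x))) * (deriv h (hsq x) * dh x v) ∧
    A v 1 = (v 0 * Real.sin (h (hsq x)) + v 1 * Real.cos (h (hsq x))) +
      (x 0 * Real.cos (h (hsq x)) - x 1 * Real.sin (h (hsq x))) * (deriv h (hsq x) * dh x v) := by
  have hk : HasFDerivAt (fun y => h (hsq y)) (deriv h (hsq x) • dh x) x :=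
    (hd (hsq x)).hasDerivAt.comp_hasFDerivAt x (hasFDerivAt_hsq x)
  have hc : HasFDerivAt (fun y => Real.cos (h (hsq y)))
      (-Real.sin (h (hsq x)) • (deriv h (hsq x) • dh x)) x := hk.cos
  have hs : HasFDerivAt (fun y => Real.sin (h (hsq y)))
      (Real.cos (h (hsq x)) • (deriv h (hsq x) • dh x)) x := hk.sin
  have h0 := hasFDerivAt_coord 0 x
  have h1 := hasFDerivAt_coord 1 x
  have e0 := (h0.mul hc).sub (h1.mul hs)
  have e1 := (h0.mul hs).add (h1.mul hc)
  let A0 : V →L[ℝ] ℝ := (x 0 • (-Real.sin (h (hsq x)) • (deriv h (hsq x) • dh x)) +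
      Real.cos (h (hsq x)) • pr 0) -
    (x 1 • (Real.cos (h (hsq x)) • (deriv h (hsq x) • dh x)) + Real.sin (h (hsq x)) • pr 1)
  let A1 : V →L[ℝ] ℝ := (x 0 • (Real.cos (h (hsq x)) • (deriv h (hsq x) • dh x)) +
      Real.sin (h (hsq x)) • pr 0) +
    (x 1 • (-Real.sin (h (hsq x)) • (deriv h (hsq x) • dh x)) + Real.cos (h (hsq x)) • pr 1)
  refine ⟨ContinuousLinearMap.pi ![A0, A1], ?_, ?_⟩
  · rw [hasFDerivAt_pi']
    intro i
    fin_cases i
    · exact e0
    · exact e1
  · intro v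
    constructor
    · simp [A0, pr]
      ring
    · simp [A1, pr]
      ring

theorem contDiff_fh (h : ℝ → ℝ) (hh : ContDiff ℝ ((⊤ : ℕ∞) : WithTop ℕ∞) h) :
    ContDiff ℝ ((⊤ : ℕ∞) : WithTop ℕ∞) (fh h) :=
  contDiff_rot (fun x => h (hsq x)) (hh.comp contDiff_hsq)

/-- a radial twist satisfies the conditions of the group -/
theorem isAP_of_fh (h : ℝ → ℝ) (hh : ContDiff ℝ ((⊤ : ℕ∞) : WithTop ℕ∞) h) (f : Equiv.Perm V)
    (hf : ∀ x, f x = fh h x) (hfi : ∀ x, f.symm x = fh (fun t => -h t) x) : IsAP f := by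
  have e1 : (⇑f : V → V) = fh h := funext hf
  have e2 : (⇑(Equiv.symm f) : V → V) = fh (fun t => -h t) := funext hfi
  have hne : ((⊤ : ℕ∞) : WithTop ℕ∞) ≠ 0 := by simp
  refine ⟨by rw [e1]; exact contDiff_fh h hh, by rw [e2]; exact contDiff_fh _ hh.neg, ?_⟩
  intro x
  rw [e1]
  obtain ⟨A, hA, hAv⟩ := hasFDerivAt_fh h (hh.differentiable hne) x
  rw [hA.fderiv]
  apply det_eq_one_of
  intro u v
  rw [(hAv u).1, (hAv u).2, (hAv v).1, (hAv v).2, dh_apply, dh_apply]
  have hcs := Real.sin_sq_add_cos_sq (h (hsq x))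
  generalize Real.cos (h (hsq x)) = c at hcs ⊢
  generalize Real.sin (h (hsq x)) = s at hcs ⊢
  generalize deriv h (hsq x) = d
  linear_combination (u 0 * v 1 - u 1 * v 0) * hcs

theorem hsq_fh (h : ℝ → ℝ) (x : V) : hsq (fh h x) = hsq x := hsq_rot _ _

theorem fh_fh (h k : ℝ → ℝ) (x : V) : fh h (fh k x) = fh (fun t => h t + k t) x := by
  have e : fh h (fh k x) = rot (h (hsq x)) (rot (k (hsq x)) x) := by
    unfold fh
    rw [hsq_rot]
  rw [e]
  unfold fh
  funext i
  fin_cases i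
  · simp only [rot, Real.cos_add, Real.sin_add, Matrix.cons_val_zero, Matrix.cons_val_one,
      Fin.zero_eta, Fin.isValue]
    ring
  · simp only [rot, Real.cos_add, Real.sin_add, Matrix.cons_val_zero, Matrix.cons_val_one,
      Fin.mk_one, Fin.isValue]
    ring

theorem fh_zero (x : V) : fh (fun _ => 0) x = x := by
  funext i
  fin_cases i <;> simp [fh, rot]

/-- the primitive `t h(t) - ∫₀ᵗ h` of `t h'(t)` -/
theorem hasDerivAt_prim (h : ℝ → ℝ) (hd : Differentiable ℝ h) (t : ℝ) :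
    HasDerivAt (fun u => u * h u - ∫ r in (0 : ℝ)..u, h r) (t * deriv h t) t := by
  have hc : Continuous h := hd.continuous
  have h1 : HasDerivAt (fun u => u * h u) (1 * h t + t * deriv h t) t :=
    (hasDerivAt_id t).mul (hd t).hasDerivAt
  have h2 : HasDerivAt (fun u => ∫ r in (0 : ℝ)..u, h r) (h t) t :=
    intervalIntegral.integral_hasDerivAt_right (hc.intervalIntegrable 0 t)
      (hc.stronglyMeasurableAtFilter _ _) hc.continuousAt
  have h3 := h1.sub h2
  have e : 1 * h t + t * deriv h t - h t = t * deriv h t := by ring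
  rw [e] at h3
  exact h3

/-- if the product is the twist `f_h` then the total primitive is `ρ h(ρ) - ∫₀^ρ h + C` -/
theorem actF_fh (h : ℝ → ℝ) (hd : Differentiable ℝ h) (L : List PW)
    (hL : ∀ q ∈ L, IsAP q.1.1 ∧ IsPrim q.1.1 q.1.2)
    (hf : ∀ x, run (ks L) L.length x = fh h x) :
    ∃ C : ℝ, ∀ x, ActF L x = (hsq x * h (hsq x) - ∫ r in (0 : ℝ)..hsq x, h r) + C := by
  obtain ⟨-, h2, h3⟩ := actF_prim L hL
  have hne : ((⊤ : ℕ∞) : WithTop ℕ∞) ≠ 0 := by simp
  have hfe : (fun y => run (ks L) L.length y) = fh h := funext hf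
  set P : ℝ → ℝ := fun u => u * h u - ∫ r in (0 : ℝ)..u, h r with hP
  have hdd : ∀ x, HasFDerivAt (fun x => ActF L x - P (hsq x)) (0 : V →L[ℝ] ℝ) x := by
    intro x
    have d1 : HasFDerivAt (ActF L) (fderiv ℝ (ActF L) x) x := (h2.differentiable hne x).hasFDerivAt
    have d2 : HasFDerivAt (fun x => P (hsq x)) ((hsq x * deriv h (hsq x)) • dh x) x :=
      (hasDerivAt_prim h hd (hsq x)).comp_hasFDerivAt x (hasFDerivAt_hsq x)
    have d3 := d1.sub d2
    have e : fderiv ℝ (ActF L) x - (hsq x * deriv h (hsq x)) • dh x = 0 := by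
      ext v
      have h4 := h3 x v
      rw [hfe, hf x] at h4
      obtain ⟨A, hA, hAv⟩ := hasFDerivAt_fh h hd x
      rw [hA.fderiv] at h4
      simp only [sub_apply, smul_apply, smul_eq_mul, zero_apply]
      rw [h4]
      obtain ⟨a0, a1⟩ := hAv v
      have f00 : fh h x 0 = x 0 * Real.cos (h (hsq x)) - x 1 * Real.sin (h (hsq x)) := rfl
      have f01 : fh h x 1 = x 0 * Real.sin (h (hsq x)) + x 1 * Real.cos (h (hsq x)) := rfl
      unfold lam
      rw [a0, a1, f00, f01]
      have hcs := Real.sin_sq_add_cos_sq (h (hsq x))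
      have hh : hsq x = (x 0 ^ 2 + x 1 ^ 2) / 2 := rfl
      generalize Real.cos (h (hsq x)) = c at hcs ⊢
      generalize Real.sin (h (hsq x)) = s at hcs ⊢
      generalize deriv h (hsq x) = d
      rw [hh]
      linear_combination ((x 0 * v 1 - x 1 * v 0) / 2 +
        d * dh x v * (x 0 ^ 2 + x 1 ^ 2) / 2) * hcs
    rw [e] at d3
    exact d3
  refine ⟨ActF L 0 - P (hsq 0), fun x => ?_⟩
  have hdiff : Differentiable ℝ (fun x => ActF L x - P (hsq x)) :=
    fun x => (hdd x).differentiableAt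
  have h5 := is_const_of_fderiv_eq_zero hdiff (fun x => (hdd x).fderiv) x 0
  have h6 : P (hsq x) = hsq x * h (hsq x) - ∫ r in (0 : ℝ)..hsq x, h r := rfl
  linarith

theorem fh_pol (h : ℝ → ℝ) (φ σ : ℝ) (hσ : 0 ≤ σ) : fh h (pol φ σ) = pol (φ + h σ) σ := by
  unfold fh
  rw [hsq_pol φ σ hσ]
  funext i
  fin_cases i
  · simp only [rot, pol, Real.cos_add, Matrix.cons_val_zero, Matrix.cons_val_one, Fin.zero_eta,
      Fin.isValue]
    ring
  · simp only [rot, pol, Real.sin_add, Matrix.cons_val_zero, Matrix.cons_val_one, Fin.mk_one,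
      Fin.isValue]
    ring

/-- if the product is the twist `f_h` then the total angle is `h(ρ) + 2πn` -/
theorem actG_fh (h : ℝ → ℝ) (hc : Continuous h) (m s U : ℝ) (hs : 0 < s) (hsU : s ≤ U)
    (L : List PW) (hL : ∀ q ∈ L, GoodPW m q)
    (hreg : ∀ σ, s ≤ σ → σ ≤ U → Reg m σ L) (hf : ∀ x, run (ks L) L.length x = fh h x) :
    ∃ n : ℤ, ∀ σ φ, s ≤ σ → σ ≤ U → ActG L (pol φ σ) = h σ + n * (2 * Real.pi) := by
  have hpi := Real.pi_pos
  let S : Set (ℝ × ℝ) := Set.univ ×ˢ Set.Icc s U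
  let g : ℝ × ℝ → ℝ := fun q => (ActG L (pol q.1 q.2) - h q.2) / (2 * Real.pi)
  have hS : IsPreconnected S := (convex_univ.prod (convex_Icc s U)).isPreconnected
  have hint : ∀ q ∈ S, ∃ n : ℤ, g q = n := by
    rintro ⟨φ, σ⟩ ⟨-, h1, h2⟩
    have hσ : 0 < σ := lt_of_lt_of_le hs h1
    have h3 := polar_run m σ L hL (hreg σ h1 h2) φ L.length le_rfl
    rw [hf, fh_pol h φ σ hσ.le, hsq_pol _ _ hσ.le] at h3
    obtain ⟨n, hn⟩ := pol_inj_ang hσ h3.symm
    refine ⟨-n, ?_⟩
    have h4 : ActG L (pol φ σ) = h σ - n * (2 * Real.pi) := by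
      unfold ActG
      linarith
    simp only [g]
    rw [h4]
    push_cast
    field_simp
    ring
  have hcont : ContinuousOn g S := by
    have hA : ContinuousOn (fun q : ℝ × ℝ => ActG L (pol q.1 q.2)) S := by
      unfold ActG
      refine continuousOn_finsetSum _ fun i hi => ?_
      rw [mem_range] at hi
      rintro ⟨φ, σ⟩ ⟨-, h1, h2⟩
      have hmem : L.getD i default ∈ L := by
        rw [List.getD_eq_getElem _ _ hi]
        exact List.getElem_mem hi
      obtain ⟨hq1, -, hq3⟩ := hL _ hmem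
      have hr := hreg σ h1 h2 φ i
      obtain ⟨θ, hθ⟩ := pol_hsq (run (ks L) i (pol φ σ))
      have hpos : 0 < dotk (L.getD i default).1.1 (run (ks L) i (pol φ σ)) := by
        rw [hθ]
        exact (hq3 _ hr.1 hr.2).1 θ
      have c1 := continuousAt_ang (L.getD i default).1.1 hq1.1.continuous _ hpos
      have c2 : ContinuousAt (fun q : ℝ × ℝ => run (ks L) i (pol q.1 q.2)) (φ, σ) :=
        ((continuous_run L (fun q hq => (hL q hq).1) i).comp continuous_pol).continuousAt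
      exact (ContinuousAt.comp (f := fun q : ℝ × ℝ => run (ks L) i (pol q.1 q.2))
        (x := (φ, σ)) c1 c2).continuousWithinAt
    exact (hA.sub (hc.comp continuous_snd).continuousOn).div_const _
  obtain ⟨n, hn⟩ := int_const hS g hcont hint ⟨(0, s), trivial, le_refl s, hsU⟩
  refine ⟨n, fun σ φ h1 h2 => ?_⟩
  have h3 := hn (φ, σ) ⟨trivial, h1, h2⟩
  simp only [g] at h3
  rw [div_eq_iff (by positivity)] at h3
  linarith

end Pool.Agent.Helper41.AB
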