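import Pool.Agent.Helper31.AP.Final
import Pool.Agent.Helper41.AB.Twist

/-! If the radial twist with angle function `h` is a product of commutators of area preserving
smooth diffeomorphisms of the plane, then `∫₀ʳ h = O(r)`. -/

set_option autoImplicit false

namespace Pool.Agent.Helper41.AB

open Finset Pool.Agent.Helper31.AP

/-- The inequality at all levels of a long interval: `s` depends on the letters only, while the
two constants `C`, `n` may depend on the right end point `U`. -/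
theorem level_ineq (h : ℝ → ℝ) (hd : Differentiable ℝ h) (f : Equiv.Perm V)
    (hf : ∀ x, f x = fh h x)
    (cs : List (Equiv.Perm V × Equiv.Perm V)) (hne : cs ≠ [])
    (hcs : ∀ c ∈ cs, IsAP c.1 ∧ IsAP c.2)
    (hprod : f = (cs.map fun c => c.1 * c.2 * c.1⁻¹ * c.2⁻¹).prod) :
    ∃ s : ℝ, 1 ≤ s ∧ ∀ U : ℝ, s ≤ U → ∃ (C : ℝ) (n : ℤ), ∀ σ, s ≤ σ → σ ≤ U →
      |C - (∫ r in (0 : ℝ)..σ, h r) - σ * (n * (2 * Real.pi))| ≤
        4 * cs.length * (2 * Real.pi) * σ := by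
  -- the common bound
  obtain ⟨B₀, hB₀m, hB₀id, hB₀⟩ := exists_common (cs.flatMap fun c => [c.1, c.2]) (by
    intro a ha
    rw [List.mem_flatMap] at ha
    obtain ⟨c, hc, ha⟩ := ha
    simp only [List.mem_cons, List.not_mem_nil, or_false] at ha
    rcases ha with rfl | rfl
    · exact (hcs c hc).1
    · exact (hcs c hc).2)
  set B₁ : ℝ → ℝ := fun r => B₀ (B₀ r) with hB₁
  have hB₁m : Monotone B₁ := hB₀m.comp hB₀m
  have hB₁id : ∀ r, r ≤ B₁ r := fun r => (hB₀id r).trans (hB₀id _)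
  set N := cs.length with hN
  set B : ℝ → ℝ := B₁^[4 * N + 2] with hB
  have hBm : Monotone B := hB₁m.iterate _
  have hBid : ∀ r, r ≤ B r := fun r => by
    exact iter_le hB₁m hB₁id (Nat.zero_le (4 * N + 2)) r
  -- the level
  have hpi := Real.pi_pos
  set s : ℝ := (B 2) ^ 2 + 1 with hs
  have hB2 : 0 ≤ B 2 := le_trans (by norm_num) (hBid 2)
  have hs1 : 1 ≤ s := by have := sq_nonneg (B 2); linarith
  have hs0 : 0 < s := by linarith
  refine ⟨s, hs1, fun U hU => ?_⟩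
  have hU0 : 0 < U := by linarith
  set S : ℝ := 2 * U + 1 with hS
  have hS0 : 0 ≤ S := by positivity
  set m : ℝ := (B S) ^ 2 + 3 with hm
  have hm2 : 2 < m := by have := sq_nonneg (B S); linarith
  -- the blocks
  have hblk : ∀ a : Equiv.Perm V, ∃ L : List PQ, FragB B₀ a → L ≠ [] ∧ (∀ q ∈ L, GoodPQ m q) ∧
      (∀ x, run (ks (fwd L)) (fwd L).length x = a x) ∧
      (∀ x, run (ks (bwd L)) (bwd L).length x = a⁻¹ x) ∧
      Ctl B₁ (ks (fwd L)) ∧ Ctl B₁ (ks (bwd L)) := by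
    intro a
    by_cases ha : FragB B₀ a
    · obtain ⟨L, hL⟩ := exists_block hB₀m hB₀id m hm2 a ha
      exact ⟨L, fun _ => hL⟩
    · exact ⟨[], fun h => absurd h ha⟩
  choose Blk hBlk using hblk
  have hlet : ∀ c ∈ cs, ∀ a, a = c.1 ∨ a = c.2 → FragB B₀ a := by
    intro c hc a ha
    apply hB₀ a
    rw [List.mem_flatMap]
    exact ⟨c, hc, by simpa using ha⟩
  set w := wordB Blk cs with hw
  set L := w.flatten with hL
  -- total map
  have hrun : ∀ x, run (ks L) L.length x = fh h x := by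
    intro x
    rw [hL, hw, run_wordB Blk cs ?_ x, ← hprod, hf]
    intro c hc a ha
    have := hBlk a (hlet c hc a ha)
    exact ⟨this.2.2.1, this.2.2.2.1⟩
  -- the blocks of `w` are good
  have hwmem : ∀ l ∈ w, l ≠ [] ∧ (∀ q ∈ l, GoodPW m q) ∧ Ctl B₁ (ks l) := by
    intro l hl
    rw [hw, wordB, List.mem_flatMap] at hl
    obtain ⟨c, hc, hl⟩ := hl
    rw [List.mem_reverse] at hc
    have g1 := hBlk c.1 (hlet c hc _ (Or.inl rfl))
    have g2 := hBlk c.2 (hlet c hc _ (Or.inr rfl))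
    have e1 : ∀ L : List PQ, L ≠ [] → fwd L ≠ [] := fun L hL => by simpa [fwd] using hL
    have e2 : ∀ L : List PQ, L ≠ [] → bwd L ≠ [] := fun L hL => by simpa [bwd] using hL
    simp only [List.mem_cons, List.not_mem_nil, or_false] at hl
    rcases hl with rfl | rfl | rfl | rfl
    · exact ⟨e2 _ g2.1, good_bwd g2.2.1, g2.2.2.2.2.2⟩
    · exact ⟨e2 _ g1.1, good_bwd g1.2.1, g1.2.2.2.2.2⟩
    · exact ⟨e1 _ g2.1, good_fwd g2.2.1, g2.2.2.2.2.1⟩
    · exact ⟨e1 _ g1.1, good_fwd g1.2.1, g1.2.2.2.2.1⟩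
  have hLgood : ∀ q ∈ L, GoodPW m q := by
    intro q hq
    rw [hL, List.mem_flatten] at hq
    obtain ⟨l, hl, hq⟩ := hq
    exact (hwmem l hl).2.1 q hq
  have hLctl : Ctl B (ks L) := by
    have h1 : ks L = (w.map ks).flatten := by rw [hL]; unfold ks; rw [List.map_flatten]
    rw [h1]
    have h2 := Ctl.iter hB₁m hB₁id (w.map ks) (by
      intro l hl
      rw [List.mem_map] at hl
      obtain ⟨l', hl', rfl⟩ := hl
      exact (hwmem l' hl').2.2)
    refine h2.mono fun r => ?_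
    rw [List.length_map, hw, wordB_length]
    exact iter_le hB₁m hB₁id (by omega) r
  have hSσ : ∀ σ, 0 < σ → σ ≤ U → 2 * σ ≤ S ^ 2 := by
    intro σ h1 h2
    rw [hS]; nlinarith
  have hregL : ∀ σ, s ≤ σ → σ ≤ U → Reg m σ L := by
    intro σ h1 h2
    have hσ0 : 0 < σ := by linarith
    exact reg_of_ctl hBm m σ S hσ0 (hSσ σ hσ0 h2) hS0 (by rw [hs] at h1; linarith) hB2
      (by rw [hm]; linarith) L hLctl
  -- pairs
  have hpairctl : ∀ L' : List PQ, Ctl B₁ (ks (fwd L')) → Ctl B₁ (ks (bwd L')) →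
      Ctl B (ks (fwd L' ++ bwd L')) := by
    intro L' h1 h2
    have h3 := Ctl.iter hB₁m hB₁id [ks (fwd L'), ks (bwd L')] (by
      intro l hl
      simp only [List.mem_cons, List.not_mem_nil, or_false] at hl
      rcases hl with rfl | rfl
      · exact h1
      · exact h2)
    rw [ks_app]
    simp only [List.flatten_cons, List.flatten_nil, List.append_nil] at h3
    refine h3.mono fun r => ?_
    exact iter_le hB₁m hB₁id (by simp) r
  -- nonempty
  have hLne : L ≠ [] := by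
    intro hL0
    have hw0 : w ≠ [] := by
      intro hw0
      have h1 := wordB_length Blk cs
      rw [← hw, hw0] at h1
      simp only [List.length_nil] at h1
      have h2 : cs.length = 0 := by omega
      exact hne (List.length_eq_zero_iff.1 h2)
    obtain ⟨l, hl⟩ := List.exists_mem_of_ne_nil w hw0
    obtain ⟨q, hq⟩ := List.exists_mem_of_ne_nil l (hwmem l hl).1
    have h3 : q ∈ L := by rw [hL]; exact List.mem_flatten.2 ⟨l, hl, hq⟩
    rw [hL0] at h3
    exact absurd h3 List.not_mem_nil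
  obtain ⟨C, hC⟩ := actF_fh h hd L (fun q hq => ⟨(hLgood q hq).1, (hLgood q hq).2.1⟩) hrun
  obtain ⟨n, hn⟩ := actG_fh h hd.continuous m s U hs0 hU L hLgood hregL hrun
  refine ⟨C, n, fun σ h1 h2 => ?_⟩
  -- the core inequality at level `σ`
  have hσ0 : 0 < σ := by linarith
  have hcr := core (p := 2 * Real.pi) (by positivity) σ hσ0.le (pairB Blk cs) ?_ ?_
    (w.map Ws) (by rw [hw]; exact perm_pairB Blk cs)
    (C - (∫ r in (0 : ℝ)..σ, h r) - σ * (n * (2 * Real.pi))) ?_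
  · rw [List.length_map, hw, wordB_length] at hcr
    push_cast at hcr
    rw [← hN] at hcr
    exact hcr
  · intro q hq
    rw [pairB, List.mem_flatMap] at hq
    obtain ⟨c, hc, hq⟩ := hq
    have g1 := hBlk c.1 (hlet c hc _ (Or.inl rfl))
    have g2 := hBlk c.2 (hlet c hc _ (Or.inr rfl))
    have e1 : ∀ L : List PQ, L ≠ [] → Ws (fwd L) ≠ [] := fun L hL => by
      simpa [fwd, Ws] using hL
    have e2 : ∀ L : List PQ, L ≠ [] → Ws (bwd L) ≠ [] := fun L hL => by
      simpa [bwd, Ws] using hL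
    simp only [List.mem_cons, List.not_mem_nil, or_false] at hq
    rcases hq with rfl | rfl
    · exact ⟨e1 _ g1.1, e2 _ g1.1⟩
    · exact ⟨e1 _ g2.1, e2 _ g2.1⟩
  · intro q hq x hx
    rw [pairB, List.mem_flatMap] at hq
    obtain ⟨c, hc, hq⟩ := hq
    have main : ∀ a, a = c.1 ∨ a = c.2 → IsCrit σ (Ws (fwd (Blk a)) ++ Ws (bwd (Blk a))) x →
        F σ (Ws (fwd (Blk a)) ++ Ws (bwd (Blk a))) x = 0 := by
      intro a ha hx
      have g := hBlk a (hlet c hc a ha)
      rw [← Ws_append] at hx ⊢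
      have hreg : Reg m σ (fwd (Blk a) ++ bwd (Blk a)) :=
        reg_of_ctl hBm m σ S hσ0 (hSσ σ hσ0 h2) hS0 (by rw [hs] at h1; linarith) hB2
          (by rw [hm]; linarith) _ (hpairctl _ g.2.2.2.2.1 g.2.2.2.2.2)
      obtain ⟨φ, -, hφ⟩ := crit_value m σ (fwd (Blk a) ++ bwd (Blk a)) (by
        have : fwd (Blk a) ≠ [] := by simpa [fwd] using g.1
        simp [this]) (by
        intro q hq
        rcases List.mem_append.1 hq with hq | hq
        · exact good_fwd g.2.1 q hq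
        · exact good_bwd g.2.1 q hq) hreg x hx
      rw [hφ, (act_fwd_bwd _ _).1, (act_fwd_bwd _ _).2]
      simp
    simp only [List.mem_cons, List.not_mem_nil, or_false] at hq
    rcases hq with rfl | rfl
    · exact main _ (Or.inl rfl) hx
    · exact main _ (Or.inr rfl) hx
  · intro x hx
    rw [← Ws_flatten, ← hL] at hx ⊢
    obtain ⟨φ, -, hφ⟩ := crit_value m σ L hLne hLgood (hregL σ h1 h2) x hx
    rw [hφ, hC, hn σ φ h1 h2, hsq_pol _ _ hσ0.le]
    ring

/-- the elementary part: the constants are eliminated by means of the levels `s` and `2 s` -/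
theorem bound_of_levels (H : ℝ → ℝ) (s D : ℝ) (hs : 1 ≤ s) (hD : 0 ≤ D)
    (hlev : ∀ U : ℝ, s ≤ U → ∃ C ν : ℝ, ∀ σ, s ≤ σ → σ ≤ U → |C - H σ - σ * ν| ≤ D * σ) :
    ∃ K : ℝ, 0 ≤ K ∧ ∀ σ, s ≤ σ → |H σ| ≤ K * σ := by
  have hs0 : 0 < s := by linarith
  set Z : ℝ := |H s| + |H (2 * s)| with hZ
  have hZ0 : 0 ≤ Z := by positivity
  refine ⟨3 * Z + 8 * D, by positivity, fun σ hσ => ?_⟩
  have hσ0 : 0 < σ := by linarith
  obtain ⟨C, ν, hC⟩ := hlev (max σ (2 * s)) (le_trans hσ (le_max_left _ _))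
  have k1 := abs_le.1 (hC s le_rfl (le_trans hσ (le_max_left _ _)))
  have k2 := abs_le.1 (hC (2 * s) (by linarith) (le_max_right _ _))
  have k3 := abs_le.1 (hC σ hσ (le_max_left _ _))
  have a1 := abs_le.1 (le_refl |H s|)
  have a2 := abs_le.1 (le_refl |H (2 * s)|)
  have b1 : 0 ≤ |H s| := abs_nonneg _
  have b2 : 0 ≤ |H (2 * s)| := abs_nonneg _
  -- `|s ν| ≤ Z + 3 D s`
  have c1 : s * ν ≤ Z + 3 * D * s := by rw [hZ]; nlinarith [k1.1, k1.2, k2.1, k2.2]
  have c2 : -(Z + 3 * D * s) ≤ s * ν := by rw [hZ]; nlinarith [k1.1, k1.2, k2.1, k2.2]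
  -- hence `|ν| ≤ Z + 3 D`
  have d1 : ν ≤ Z + 3 * D := by
    by_contra hcon
    push Not at hcon
    nlinarith
  have d2 : -(Z + 3 * D) ≤ ν := by
    by_contra hcon
    push Not at hcon
    nlinarith
  -- `|C| ≤ 2 Z + 4 D s`
  have e1 : C ≤ 2 * Z + 4 * D * s := by nlinarith [k1.1, k1.2]
  have e2 : -(2 * Z + 4 * D * s) ≤ C := by nlinarith [k1.1, k1.2]
  have f1 : 2 * Z + 4 * D * s ≤ (2 * Z + 4 * D) * σ := by nlinarith
  have g1 : ν * σ ≤ (Z + 3 * D) * σ := mul_le_mul_of_nonneg_right d1 hσ0.le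
  have g2 : -(Z + 3 * D) * σ ≤ ν * σ := mul_le_mul_of_nonneg_right d2 hσ0.le
  rw [abs_le]
  constructor
  · nlinarith [k3.1, k3.2]
  · nlinarith [k3.1, k3.2]

/-- small radii -/
theorem bound_small (h : ℝ → ℝ) (hc : Continuous h) (s : ℝ) :
    ∃ K : ℝ, 0 ≤ K ∧ ∀ σ, 0 ≤ σ → σ ≤ s → |∫ r in (0 : ℝ)..σ, h r| ≤ K * σ := by
  obtain ⟨K, hK⟩ := (isCompact_Icc (a := (0 : ℝ)) (b := s)).exists_bound_of_continuousOn
    hc.continuousOn
  refine ⟨max K 0, le_max_right _ _, fun σ h0 h1 => ?_⟩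
  have h2 := intervalIntegral.norm_integral_le_of_norm_le_const (f := h) (a := 0) (b := σ)
    (C := max K 0) (by
      intro x hx
      rw [Set.uIoc_of_le h0] at hx
      exact (hK x ⟨hx.1.le, hx.2.trans h1⟩).trans (le_max_left _ _))
  rw [Real.norm_eq_abs, sub_zero, abs_of_nonneg h0] at h2
  exact h2

/-- If the twist with angle function `h` is a product of commutators then `∫₀ʳ h = O(r)`. -/
theorem bounded_mean_of_prod (h : ℝ → ℝ) (hh : ContDiff ℝ ((⊤ : ℕ∞) : WithTop ℕ∞) h)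
    (f : Equiv.Perm V) (hf : ∀ x, f x = fh h x)
    (hcl : f ∈ Subgroup.closure {c : Equiv.Perm V | ∃ a b : Equiv.Perm V,
      IsAP a ∧ IsAP b ∧ c = a * b * a⁻¹ * b⁻¹}) :
    ∃ K : ℝ, ∀ r : ℝ, 1 ≤ r → |∫ t in (0 : ℝ)..r, h t| ≤ K * r := by
  have hne : ((⊤ : ℕ∞) : WithTop ℕ∞) ≠ 0 := by simp
  obtain ⟨cs, h1, h2⟩ := closure_comm f hcl
  have hd : Differentiable ℝ h := hh.differentiable hne
  have h1' : ∀ c ∈ ((1 : Equiv.Perm V), (1 : Equiv.Perm V)) :: cs, IsAP c.1 ∧ IsAP c.2 := by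
    intro c hc
    rcases List.mem_cons.1 hc with rfl | hc
    · exact ⟨IsAP.one, IsAP.one⟩
    · exact h1 c hc
  obtain ⟨s, hs1, hs⟩ := level_ineq h hd f hf (((1 : Equiv.Perm V), (1 : Equiv.Perm V)) :: cs)
    (by simp) h1' (by rw [h2]; simp)
  obtain ⟨K, hK0, hK⟩ := bound_of_levels (fun σ => ∫ r in (0 : ℝ)..σ, h r) s
    (4 * (((1 : Equiv.Perm V), (1 : Equiv.Perm V)) :: cs).length * (2 * Real.pi)) hs1
    (by positivity) (by
      intro U hU
      obtain ⟨C, n, hC⟩ := hs U hU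
      exact ⟨C, n * (2 * Real.pi), hC⟩)
  obtain ⟨K', hK'0, hK'⟩ := bound_small h hd.continuous s
  refine ⟨K + K', fun r hr => ?_⟩
  have hr0 : 0 ≤ r := by linarith
  rcases le_total r s with hrs | hrs
  · refine (hK' r hr0 hrs).trans ?_
    nlinarith
  · refine (hK r hrs).trans ?_
    nlinarith

end Pool.Agent.Helper41.AB
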